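import Mathlib

/-!
# MP_e888d6_gt, Q1: a closed submanifold which is not coisotropic and has only countable packings

We disprove Q1 for `M = ℝ⁶`, `n = 3`.  Let `k : ℝ → ℝ` be smooth, zero exactly on `[-1, 1]`, and such
that `S = {(z, w) ∈ ℂ × ℝ : |z|² + k(w) = 1}` is a 2-sphere of revolution with a cylindrical part.
In `ℝ⁶ = ℂ² × ℝ²` with coordinates `(z₁, z₂, u, v)` let

  `K = {|z₁|² + k(u) = 1, |z₂|² + k(v) = 1}`,

a 4-dimensional closed submanifold with trivial normal bundle, which is not coisotropic at its points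
with `z₁ = z₂ = 0`.  It contains `T² × [-1, 1]²`, where `T² = {|z₁| = |z₂| = 1}`.

Let `ψ` be a symplectic map, `C¹` close to the identity, and `(z', u', v') = ψ(z, u, v)`.  Consider the
points `(z, 0, v)` with `z ∈ T²` and `v' = 0`.  The form `ψ^* λ - λ = df` restricted to them is, up to an
exact form, `∑ (|z_j'|² - 1) dθ_j' / 2`, so that `|z_1'| = |z_2'| = 1` at a critical point of a function.
Hence `ψ(K)` meets `K`.  Since the `C¹` topology is second countable, among uncountably many Hamiltonian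
diffeomorphisms two are so close that the images of `K` meet.
-/

set_option autoImplicit false

open Set Filter Topology Metric Function
open scoped ContDiff

universe u

noncomputable section

namespace Pool.Agent.Results.MP_e888d6_gt.RigidSpheres

/-- `ℝ^{2n}`; the coordinates of `z` are `x_i = z (i, 0)` and `y_i = z (i, 1)`. -/
abbrev E (n : ℕ) : Type := EuclideanSpace ℝ (Fin n × Fin 2)

/-- The standard symplectic form `∑ dx_i ∧ dy_i`. -/
def omega {n : ℕ} (u v : E n) : ℝ :=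
  ∑ i : Fin n, (u (i, 0) * v (i, 1) - u (i, 1) * v (i, 0))

/-- `φ` is a compactly supported Hamiltonian diffeomorphism: the time-1 map of the isotopy `Φ` (with
inverse `Ψ`) generated by the compactly supported Hamiltonian function `H`. -/
def IsHamiltonian {n : ℕ} (φ : E n → E n) : Prop :=
  ∃ (H : ℝ → E n → ℝ) (Φ Ψ : ℝ → E n → E n),
    ContDiff ℝ ∞ (fun p : ℝ × E n => H p.1 p.2) ∧
    (∃ C : Set (E n), IsCompact C ∧ ∀ t, ∀ x, x ∉ C → H t x = 0) ∧
    ContDiff ℝ ∞ (fun p : ℝ × E n => Φ p.1 p.2) ∧ ContDiff ℝ ∞ (fun p : ℝ × E n => Ψ p.1 p.2) ∧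
    (∀ t x, Ψ t (Φ t x) = x ∧ Φ t (Ψ t x) = x) ∧ (∀ x, Φ 0 x = x) ∧
    (∀ t ∈ Icc (0 : ℝ) 1, ∀ x v, omega (deriv (fun s => Φ s x) t) v = fderiv ℝ (H t) (Φ t x) v) ∧
    Φ 1 = φ

/-- `K` is an embedded submanifold of dimension `d`: near each of its points it is the zero set of a
smooth map with values in `ℝ^{2n-d}`, whose derivative is surjective there. -/
def IsSubmanifold {n : ℕ} (d : ℕ) (K : Set (E n)) : Prop :=
  d ≤ 2 * n ∧ ∀ x ∈ K, ∃ (U : Set (E n)) (g : E n → EuclideanSpace ℝ (Fin (2 * n - d))),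
    IsOpen U ∧ x ∈ U ∧ ContDiffOn ℝ ∞ g U ∧ Surjective (fderiv ℝ g x) ∧ ∀ y ∈ U, y ∈ K ↔ g y = 0

/-- The tangent space of `K` at `x`: the velocities of the smooth curves in `K` through `x`. -/
def tangent {n : ℕ} (K : Set (E n)) (x : E n) : Set (E n) :=
  {h | ∃ c : ℝ → E n, ContDiff ℝ ∞ c ∧ c 0 = x ∧ (∀ᶠ t in 𝓝 (0 : ℝ), c t ∈ K) ∧ deriv c 0 = h}

/-- The normal bundle of `K` has a nowhere vanishing section. -/
def HasNormalSection {n : ℕ} (K : Set (E n)) : Prop :=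
  ∃ ν : E n → E n, ContDiff ℝ ∞ ν ∧ ∀ x ∈ K, ν x ∉ tangent K x

/-- `K` is coisotropic. -/
def IsCoisotropic {n : ℕ} (K : Set (E n)) : Prop :=
  ∀ x ∈ K, ∀ v : E n, (∀ w ∈ tangent K x, omega v w = 0) → v ∈ tangent K x

/-- The family `F` of subsets is a packing of `K`. -/
def IsPacking {n : ℕ} (K : Set (E n)) {ι : Type u} (F : ι → Set (E n)) : Prop :=
  (∀ i, ∃ φ : E n → E n, IsHamiltonian φ ∧ F i = φ '' K) ∧ ∀ i j, i ≠ j → Disjoint (F i) (F j)

/-! ### Complex coordinates -/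

/-- `zc j x = x_j + i y_j`. -/
def zc (j : Fin 3) : E 3 →L[ℝ] ℂ :=
  Complex.ofRealCLM.comp (EuclideanSpace.proj (j, 0)) +
    Complex.I • Complex.ofRealCLM.comp (EuclideanSpace.proj (j, 1))

theorem zc_apply (j : Fin 3) (x : E 3) : zc j x = (x (j, 0) : ℂ) + Complex.I * (x (j, 1) : ℂ) := rfl

theorem zc_re (j : Fin 3) (x : E 3) : (zc j x).re = x (j, 0) := by simp [zc_apply]
theorem zc_im (j : Fin 3) (x : E 3) : (zc j x).im = x (j, 1) := by simp [zc_apply]

theorem omega_eq (x y : E 3) : omega x y = ∑ j : Fin 3, ((starRingEnd ℂ (zc j x)) * zc j y).im := by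
  unfold omega
  refine Finset.sum_congr rfl fun j _ => ?_
  rw [Complex.mul_im, Complex.conj_re, Complex.conj_im, zc_re, zc_re, zc_im, zc_im]
  ring

theorem zc_norm_le (j : Fin 3) (x : E 3) : ‖zc j x‖ ≤ 2 * ‖x‖ := by
  have h0 := PiLp.norm_apply_le (p := 2) x (j, 0)
  have h1 := PiLp.norm_apply_le (p := 2) x (j, 1)
  refine (Complex.norm_le_abs_re_add_abs_im _).trans ?_
  rw [zc_re, zc_im, ← Real.norm_eq_abs, ← Real.norm_eq_abs]
  linarith

/-- The inclusion of the `j`-th complex coordinate. -/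
def io (j : Fin 3) : ℂ →L[ℝ] E 3 :=
  Complex.reCLM.smulRight (EuclideanSpace.single (j, 0) 1 : E 3) +
    Complex.imCLM.smulRight (EuclideanSpace.single (j, 1) 1 : E 3)

theorem io_apply (j : Fin 3) (z : ℂ) : io j z = z.re • (EuclideanSpace.single (j, 0) 1 : E 3) +
    z.im • (EuclideanSpace.single (j, 1) 1 : E 3) := rfl

theorem zc_io (k j : Fin 3) (z : ℂ) : zc k (io j z) = if k = j then z else 0 := by
  rw [zc_apply, io_apply]
  by_cases h : k = j
  · subst h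
    simp [mul_comm Complex.I, Complex.re_add_im]
  · simp [h]

theorem io_norm_le (j : Fin 3) (z : ℂ) : ‖io j z‖ ≤ 2 * ‖z‖ := by
  rw [io_apply]
  refine (norm_add_le _ _).trans ?_
  rw [norm_smul, norm_smul, PiLp.norm_single, PiLp.norm_single, norm_one,
    mul_one, mul_one, Real.norm_eq_abs, Real.norm_eq_abs]
  linarith [Complex.abs_re_le_norm z, Complex.abs_im_le_norm z]

/-- The parametrisation of `T² × {0} × ℝ`. -/
def P (q : ℝ × ℝ × ℝ) : E 3 :=
  io 0 (Complex.exp (Complex.I * q.1)) + io 1 (Complex.exp (Complex.I * q.2.1)) +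
    io 2 (Complex.I * q.2.2)

/-- The derivative of `P`. -/
def P' (q : ℝ × ℝ × ℝ) (h : ℝ × ℝ × ℝ) : E 3 :=
  io 0 (Complex.exp (Complex.I * q.1) * (Complex.I * h.1)) +
    io 1 (Complex.exp (Complex.I * q.2.1) * (Complex.I * h.2.1)) +
    io 2 (Complex.I * h.2.2)

theorem contDiff_P : ContDiff ℝ ∞ P := by
  unfold P
  have h1 : ContDiff ℝ ∞ (fun q : ℝ × ℝ × ℝ => (q.1 : ℂ)) := Complex.ofRealCLM.contDiff.comp contDiff_fst
  have h2 : ContDiff ℝ ∞ (fun q : ℝ × ℝ × ℝ => (q.2.1 : ℂ)) :=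
    Complex.ofRealCLM.contDiff.comp (contDiff_fst.comp contDiff_snd)
  have h3 : ContDiff ℝ ∞ (fun q : ℝ × ℝ × ℝ => (q.2.2 : ℂ)) :=
    Complex.ofRealCLM.contDiff.comp (contDiff_snd.comp contDiff_snd)
  exact (((io 0).contDiff.comp (contDiff_const.mul h1).cexp).add
    ((io 1).contDiff.comp (contDiff_const.mul h2).cexp)).add ((io 2).contDiff.comp (contDiff_const.mul h3))

theorem fderiv_P (q h : ℝ × ℝ × ℝ) : fderiv ℝ P q h = P' q h := by
  have hd : HasFDerivAt P (fderiv ℝ P q) q := (contDiff_P.differentiable (by simp) q).hasFDerivAt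
  have h1 : HasDerivAt (fun t : ℝ => P (q + t • h)) (fderiv ℝ P q h) 0 := by
    have h2 : HasDerivAt (fun t : ℝ => q + t • h) h 0 := by
      simpa using ((hasDerivAt_id (0:ℝ)).smul_const h).const_add q
    have hd' : HasFDerivAt P (fderiv ℝ P q) (q + (0:ℝ) • h) := by simpa using hd
    exact hd'.comp_hasDerivAt (0:ℝ) h2
  have h2 : HasDerivAt (fun t : ℝ => P (q + t • h)) (P' q h) 0 := by
    unfold P P'
    have e : ∀ a b : ℝ, HasDerivAt (fun t : ℝ => Complex.I * ((a + t * b : ℝ) : ℂ)) (Complex.I * (b : ℂ)) 0 := by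
      intro a b
      have := (((hasDerivAt_id (0:ℝ)).mul_const b).const_add a).ofReal_comp
      simpa using this.const_mul Complex.I
    have c0 := (io 0).hasFDerivAt.comp_hasDerivAt (0:ℝ) (e q.1 h.1).cexp
    have c1 := (io 1).hasFDerivAt.comp_hasDerivAt (0:ℝ) (e q.2.1 h.2.1).cexp
    have c2 := (io 2).hasFDerivAt.comp_hasDerivAt (0:ℝ) (e q.2.2 h.2.2)
    refine ((c0.add c1).add c2).congr_deriv ?_
    simp
  exact h1.unique h2

theorem P'_norm_le (q h : ℝ × ℝ × ℝ) : ‖P' q h‖ ≤ 6 * ‖h‖ := by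
  have h1 : ‖h.1‖ ≤ ‖h‖ := norm_fst_le h
  have h2 : ‖h.2.1‖ ≤ ‖h‖ := (norm_fst_le h.2).trans (norm_snd_le h)
  have h3 : ‖h.2.2‖ ≤ ‖h‖ := (norm_snd_le h.2).trans (norm_snd_le h)
  have e : ∀ a b : ℝ, ‖Complex.exp (Complex.I * a) * (Complex.I * b)‖ = ‖b‖ := by
    intro a b
    rw [norm_mul, norm_mul, mul_comm Complex.I, Complex.norm_exp_ofReal_mul_I]
    simp
  have e' : ∀ b : ℝ, ‖Complex.I * (b : ℂ)‖ = ‖b‖ := by
    intro b
    simp
  unfold P'
  refine (norm_add_le _ _).trans ((add_le_add_left ((norm_add_le _ _)) _).trans ?_)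
  have k0 := io_norm_le 0 (Complex.exp (Complex.I * q.1) * (Complex.I * h.1))
  have k1 := io_norm_le 1 (Complex.exp (Complex.I * q.2.1) * (Complex.I * h.2.1))
  have k2 := io_norm_le 2 (Complex.I * h.2.2)
  rw [e] at k0 k1
  rw [e'] at k2
  linarith


/-! ### The primitive of `ψ^* λ - λ` -/

theorem omega_add_left {n : ℕ} (a b c : E n) : omega (a + b) c = omega a c + omega b c := by
  unfold omega
  rw [← Finset.sum_add_distrib]
  exact Finset.sum_congr rfl fun i _ => by simp only [PiLp.add_apply]; ring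

theorem omega_smul_left {n : ℕ} (r : ℝ) (b c : E n) : omega (r • b) c = r * omega b c := by
  unfold omega
  rw [Finset.mul_sum]
  exact Finset.sum_congr rfl fun i _ => by simp only [PiLp.smul_apply, smul_eq_mul]; ring

theorem omega_add_right {n : ℕ} (a b c : E n) : omega a (b + c) = omega a b + omega a c := by
  unfold omega
  rw [← Finset.sum_add_distrib]
  exact Finset.sum_congr rfl fun i _ => by simp only [PiLp.add_apply]; ring

theorem omega_smul_right {n : ℕ} (r : ℝ) (b c : E n) : omega b (r • c) = r * omega b c := by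
  unfold omega
  rw [Finset.mul_sum]
  exact Finset.sum_congr rfl fun i _ => by simp only [PiLp.smul_apply, smul_eq_mul]; ring

theorem omega_swap {n : ℕ} (b c : E n) : omega b c = - omega c b := by
  unfold omega
  rw [← Finset.sum_neg_distrib]
  exact Finset.sum_congr rfl fun i _ => by ring

/-- The standard form as a continuous bilinear map. -/
def om (n : ℕ) : E n →L[ℝ] E n →L[ℝ] ℝ :=
  LinearMap.toContinuousLinearMap
    (LinearMap.toContinuousLinearMap.toLinearMap ∘ₗ (LinearMap.mk₂ ℝ (omega (n := n))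
      omega_add_left omega_smul_left omega_add_right omega_smul_right))

theorem om_apply {n : ℕ} (u v : E n) : om n u v = omega u v := rfl

theorem exists_primitive {n : ℕ} (ψ : E n → E n) (hψ : ContDiff ℝ ∞ ψ)
    (hs : ∀ x u v, omega (fderiv ℝ ψ x u) (fderiv ℝ ψ x v) = omega u v) :
    ∃ (f : E n → ℝ) (θ : E n → E n →L[ℝ] ℝ), (∀ x, HasStrictFDerivAt f (θ x) x) ∧
      ∀ x h, θ x h = (1/2) * omega (ψ x) (fderiv ℝ ψ x h) - (1/2) * omega x h := by
  let θ : E n → E n →L[ℝ] ℝ := fun x =>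
    (1/2 : ℝ) • ((om n (ψ x)).comp (fderiv ℝ ψ x)) - (1/2 : ℝ) • om n x
  have hθ : ContDiff ℝ ∞ θ := by
    have h1 : ContDiff ℝ ∞ (fderiv ℝ ψ) := hψ.fderiv_right (by simp)
    have h2 : ContDiff ℝ ∞ (fun x => (om n (ψ x)).comp (fderiv ℝ ψ x)) :=
      ((om n).contDiff.comp hψ).clm_comp h1
    have h3 : ContDiff ℝ ∞ (fun x => om n x) := (om n).contDiff
    exact (h2.const_smul (1/2 : ℝ)).sub (h3.const_smul (1/2 : ℝ))
  have hd : ∀ x, HasFDerivAt θ (fderiv ℝ θ x) x := fun x => (hθ.differentiable (by simp) x).hasFDerivAt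
  have hval : ∀ x h, θ x h = (1/2) * omega (ψ x) (fderiv ℝ ψ x h) - (1/2) * omega x h := fun x h => rfl
  have hsym : ∀ a x y, fderiv ℝ θ a x y = fderiv ℝ θ a y x := by
    intro a x y
    have key : ∀ u v, fderiv ℝ θ a u v = (1/2) * (omega (fderiv ℝ ψ a u) (fderiv ℝ ψ a v) +
        omega (ψ a) (fderiv ℝ (fderiv ℝ ψ) a u v)) - (1/2) * omega u v := by
      intro u v
      have h1 : HasFDerivAt (fun x => θ x v) ((ContinuousLinearMap.apply ℝ ℝ v).comp (fderiv ℝ θ a)) a :=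
        (ContinuousLinearMap.apply ℝ ℝ v).hasFDerivAt.comp a (hd a)
      have hψ1 : HasFDerivAt ψ (fderiv ℝ ψ a) a := (hψ.differentiable (by simp) a).hasFDerivAt
      have hψ2 : HasFDerivAt (fderiv ℝ ψ) (fderiv ℝ (fderiv ℝ ψ) a) a :=
        (((hψ.fderiv_right (m := ∞) (by simp)).differentiable (by simp)) a).hasFDerivAt
      have hψ3 : HasFDerivAt (fun x => fderiv ℝ ψ x v)
          ((ContinuousLinearMap.apply ℝ (E n) v).comp (fderiv ℝ (fderiv ℝ ψ) a)) a :=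
        (ContinuousLinearMap.apply ℝ (E n) v).hasFDerivAt.comp a hψ2
      have h2 : HasFDerivAt (fun x => om n (ψ x) (fderiv ℝ ψ x v)) _ a :=
        ((om n).hasFDerivAt.comp a hψ1).clm_apply hψ3
      have h3 : HasFDerivAt (fun x => om n x v) ((ContinuousLinearMap.apply ℝ ℝ v).comp (om n)) a :=
        (ContinuousLinearMap.apply ℝ ℝ v).hasFDerivAt.comp a (om n).hasFDerivAt
      have h4 : HasFDerivAt (fun x => θ x v) _ a := (h2.const_mul (1/2)).sub (h3.const_mul (1/2))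
      have h5 := DFunLike.congr_fun (h1.unique h4) u
      simp only [ContinuousLinearMap.comp_apply, ContinuousLinearMap.apply_apply] at h5
      rw [h5]
      simp [om_apply]
      ring
    rw [key, key, hs, hs]
    have h1 : fderiv ℝ (fderiv ℝ ψ) a x y = fderiv ℝ (fderiv ℝ ψ) a y x :=
      (hψ.contDiffAt.isSymmSndFDerivAt (by
      rw [minSmoothness_of_isRCLikeNormedField]
      exact WithTop.coe_le_coe.2 (le_top : (2:ℕ∞) ≤ ⊤))) x y
    rw [h1, omega_swap x y]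
    ring
  have hd' : ∀ x ∈ (univ : Set (E n)), HasFDerivWithinAt θ (fderiv ℝ θ x) univ x :=
    fun x _ => (hd x).hasFDerivWithinAt
  obtain ⟨f, hf⟩ := Convex.exists_forall_hasFDerivWithinAt_of_hasFDerivWithinAt_symmetric
    convex_univ hd' (fun a _ x _ y _ => hsym a x y)
  refine ⟨f, θ, fun x => ?_, hval⟩
  have hf' : ∀ x, HasFDerivAt f (θ x) x := fun x => by simpa using hf x (mem_univ x)
  exact hasStrictFDerivAt_of_hasFDerivAt_of_continuousAt (Eventually.of_forall hf') hθ.continuous.continuousAt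

/-! ### The core lemma -/

theorem alg {a0 a1 c κ : ℝ} (hκ : κ < 1/5) (m : Fin 3 → Fin 3 → ℝ)
    (hm : ∀ i j, |m i j| ≤ κ)
    (h0 : (1/2) * a0 * (1 + m 0 0) + (1/2) * a1 * m 1 0 + c * m 2 0 = 0)
    (h1 : (1/2) * a0 * m 0 1 + (1/2) * a1 * (1 + m 1 1) + c * m 2 1 = 0)
    (h2 : (1/2) * a0 * m 0 2 + (1/2) * a1 * m 1 2 + c * (1 + m 2 2) = 0) : a0 = 0 ∧ a1 = 0 := by
  have hb : ∀ (x : ℝ) (i j : Fin 3), |x * m i j| ≤ κ * |x| := by
    intro x i j
    rw [abs_mul, mul_comm κ]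
    exact mul_le_mul_of_nonneg_left (hm i j) (abs_nonneg x)
  have e0 : |(1/2) * a0| ≤ κ * (|(1/2) * a0| + |(1/2) * a1| + |c|) := by
    have e : (1/2) * a0 = -(((1/2) * a0) * m 0 0 + ((1/2) * a1) * m 1 0 + c * m 2 0) := by linarith
    calc |(1/2) * a0| = |((1/2) * a0) * m 0 0 + ((1/2) * a1) * m 1 0 + c * m 2 0| := by
          conv_lhs => rw [e]
          rw [abs_neg]
      _ ≤ _ := by
          refine (abs_add_three _ _ _).trans ?_
          linarith [hb ((1/2) * a0) 0 0, hb ((1/2) * a1) 1 0, hb c 2 0]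
  have e1 : |(1/2) * a1| ≤ κ * (|(1/2) * a0| + |(1/2) * a1| + |c|) := by
    have e : (1/2) * a1 = -(((1/2) * a0) * m 0 1 + ((1/2) * a1) * m 1 1 + c * m 2 1) := by linarith
    calc |(1/2) * a1| = |((1/2) * a0) * m 0 1 + ((1/2) * a1) * m 1 1 + c * m 2 1| := by
          conv_lhs => rw [e]
          rw [abs_neg]
      _ ≤ _ := by
          refine (abs_add_three _ _ _).trans ?_
          linarith [hb ((1/2) * a0) 0 1, hb ((1/2) * a1) 1 1, hb c 2 1]
  have e2 : |c| ≤ κ * (|(1/2) * a0| + |(1/2) * a1| + |c|) := by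
    have e : c = -(((1/2) * a0) * m 0 2 + ((1/2) * a1) * m 1 2 + c * m 2 2) := by linarith
    calc |c| = |((1/2) * a0) * m 0 2 + ((1/2) * a1) * m 1 2 + c * m 2 2| := by
          conv_lhs => rw [e]
          rw [abs_neg]
      _ ≤ _ := by
          refine (abs_add_three _ _ _).trans ?_
          linarith [hb ((1/2) * a0) 0 2, hb ((1/2) * a1) 1 2, hb c 2 2]
  set M := |(1/2) * a0| + |(1/2) * a1| + |c| with hM
  have hM0 : 0 ≤ M := by positivity
  have hM1 : M ≤ 3 * κ * M := by linarith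
  have hM2 : M = 0 := by
    by_contra h
    have : 0 < M := lt_of_le_of_ne hM0 (Ne.symm h)
    nlinarith
  have k0 : |(1/2) * a0| ≤ 0 := by linarith [abs_nonneg ((1/2) * a0), abs_nonneg ((1/2) * a1), abs_nonneg c]
  have k1 : |(1/2) * a1| ≤ 0 := by linarith [abs_nonneg ((1/2) * a0), abs_nonneg ((1/2) * a1), abs_nonneg c]
  have k0' := abs_nonpos_iff.1 k0
  have k1' := abs_nonpos_iff.1 k1
  constructor <;> linarith

/-- `T² × [-1, 1]²`. -/
def R0 : Set (E 3) := {x | ‖zc 0 x‖ = 1 ∧ ‖zc 1 x‖ = 1 ∧ |x (2, 0)| ≤ 1 ∧ |x (2, 1)| ≤ 1}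

/-- The angles. -/
def al (j : Fin 3) : ℝ × ℝ × ℝ →L[ℝ] ℝ :=
  ![ContinuousLinearMap.fst ℝ ℝ (ℝ × ℝ),
    (ContinuousLinearMap.fst ℝ ℝ ℝ).comp (ContinuousLinearMap.snd ℝ ℝ (ℝ × ℝ)),
    (ContinuousLinearMap.snd ℝ ℝ ℝ).comp (ContinuousLinearMap.snd ℝ ℝ (ℝ × ℝ))] j

theorem al_norm (j : Fin 3) (h : ℝ × ℝ × ℝ) : |al j h| ≤ ‖h‖ := by
  have h1 : ‖h.1‖ ≤ ‖h‖ := norm_fst_le h
  have h2 : ‖h.2.1‖ ≤ ‖h‖ := (norm_fst_le h.2).trans (norm_snd_le h)
  have h3 : ‖h.2.2‖ ≤ ‖h‖ := (norm_snd_le h.2).trans (norm_snd_le h)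
  fin_cases j
  · exact h1
  · exact h2
  · exact h3

theorem P_norm_le (q : ℝ × ℝ × ℝ) (hq : |q.2.2| ≤ 1) : ‖P q‖ ≤ 6 := by
  unfold P
  refine (norm_add_le _ _).trans ((add_le_add_left ((norm_add_le _ _)) _).trans ?_)
  have k0 := io_norm_le 0 (Complex.exp (Complex.I * q.1))
  have k1 := io_norm_le 1 (Complex.exp (Complex.I * q.2.1))
  have k2 := io_norm_le 2 (Complex.I * q.2.2)
  rw [mul_comm Complex.I, Complex.norm_exp_ofReal_mul_I] at k0 k1
  have : ‖Complex.I * (q.2.2 : ℂ)‖ = |q.2.2| := by simp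
  rw [this] at k2
  rw [mul_comm Complex.I, mul_comm Complex.I (q.2.1 : ℂ)]
  linarith

theorem zc_P0 (q : ℝ × ℝ × ℝ) : zc 0 (P q) = Complex.exp (Complex.I * (al 0 q : ℝ)) := by
  unfold P
  rw [map_add, map_add, zc_io, zc_io, zc_io]
  simp [al]

theorem zc_P1 (q : ℝ × ℝ × ℝ) : zc 1 (P q) = Complex.exp (Complex.I * (al 1 q : ℝ)) := by
  unfold P
  rw [map_add, map_add, zc_io, zc_io, zc_io]
  simp [al]

theorem zc_P2 (q : ℝ × ℝ × ℝ) : zc 2 (P q) = Complex.I * (al 2 q : ℝ) := by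
  unfold P
  rw [map_add, map_add, zc_io, zc_io, zc_io]
  simp [al]

theorem zc_P'0 (q h : ℝ × ℝ × ℝ) : zc 0 (P' q h) =
    Complex.exp (Complex.I * (al 0 q : ℝ)) * (Complex.I * (al 0 h : ℝ)) := by
  unfold P'
  rw [map_add, map_add, zc_io, zc_io, zc_io]
  simp [al]

theorem zc_P'1 (q h : ℝ × ℝ × ℝ) : zc 1 (P' q h) =
    Complex.exp (Complex.I * (al 1 q : ℝ)) * (Complex.I * (al 1 h : ℝ)) := by
  unfold P'
  rw [map_add, map_add, zc_io, zc_io, zc_io]
  simp [al]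

theorem zc_P'2 (q h : ℝ × ℝ × ℝ) : zc 2 (P' q h) = Complex.I * (al 2 h : ℝ) := by
  unfold P'
  rw [map_add, map_add, zc_io, zc_io, zc_io]
  simp [al]

/-- The quotient of the coordinates of `ψ (P q)` and `P q`. -/
def rho (ψ : E 3 → E 3) (j : Fin 3) (q : ℝ × ℝ × ℝ) : ℂ :=
  Complex.exp (-(Complex.I * (al j q : ℝ))) * zc j (ψ (P q))

theorem contDiff_rho (ψ : E 3 → E 3) (hψ : ContDiff ℝ ∞ ψ) (j : Fin 3) : ContDiff ℝ ∞ (rho ψ j) := by
  unfold rho
  have h1 : ContDiff ℝ ∞ (fun q : ℝ × ℝ × ℝ => ((al j q : ℝ) : ℂ)) :=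
    Complex.ofRealCLM.contDiff.comp (al j).contDiff
  exact (contDiff_const.mul h1).neg.cexp.mul ((zc j).contDiff.comp (hψ.comp contDiff_P))

theorem exp_mul_rho (ψ : E 3 → E 3) (j : Fin 3) (q : ℝ × ℝ × ℝ) :
    zc j (ψ (P q)) = Complex.exp (Complex.I * (al j q : ℝ)) * rho ψ j q := by
  unfold rho
  rw [← mul_assoc, ← Complex.exp_add, add_neg_cancel, Complex.exp_zero, one_mul]

theorem norm_exp (a : ℝ) : ‖Complex.exp (Complex.I * a)‖ = 1 := by
  rw [mul_comm, Complex.norm_exp_ofReal_mul_I]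

theorem norm_exp_neg (a : ℝ) : ‖Complex.exp (-(Complex.I * a))‖ = 1 := by
  have : -(Complex.I * (a : ℂ)) = Complex.I * ((-a : ℝ) : ℂ) := by push_cast; ring
  rw [this, norm_exp]

theorem rho_sub_one (ψ : E 3 → E 3) (δ : ℝ) (j : Fin 3)
    (hz : ∀ q, zc j (P q) = Complex.exp (Complex.I * (al j q : ℝ))) (q : ℝ × ℝ × ℝ)
    (hc : ‖ψ (P q) - P q‖ ≤ δ) : ‖rho ψ j q - 1‖ ≤ 2 * δ := by
  have h1 : rho ψ j q - 1 = Complex.exp (-(Complex.I * (al j q : ℝ))) * zc j (ψ (P q) - P q) := by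
    rw [map_sub, mul_sub, hz, ← Complex.exp_add, neg_add_cancel, Complex.exp_zero]
    rfl
  rw [h1, norm_mul, norm_exp_neg, one_mul]
  exact (zc_norm_le _ _).trans (by linarith)

theorem rho_deriv (ψ : E 3 → E 3) (hψ : ContDiff ℝ ∞ ψ) (δ : ℝ) (j : Fin 3)
    (hz : ∀ q, zc j (P q) = Complex.exp (Complex.I * (al j q : ℝ)))
    (hz' : ∀ q h, zc j (P' q h) = Complex.exp (Complex.I * (al j q : ℝ)) *
      (Complex.I * (al j h : ℝ))) (q : ℝ × ℝ × ℝ)
    (hc : ‖ψ (P q) - P q‖ ≤ δ) (hc' : ‖fderiv ℝ ψ (P q) - ContinuousLinearMap.id ℝ (E 3)‖ ≤ δ)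
    (h : ℝ × ℝ × ℝ) :
    zc j (fderiv ℝ ψ (P q) (P' q h)) = Complex.exp (Complex.I * (al j q : ℝ)) *
      (Complex.I * (al j h : ℝ) * rho ψ j q + fderiv ℝ (rho ψ j) q h) ∧
    ‖fderiv ℝ (rho ψ j) q h‖ ≤ 14 * δ * ‖h‖ := by
  have hP : HasFDerivAt P (fderiv ℝ P q) q := (contDiff_P.differentiable (by simp) q).hasFDerivAt
  have hψ1 : HasFDerivAt ψ (fderiv ℝ ψ (P q)) (P q) := (hψ.differentiable (by simp) _).hasFDerivAt
  have hr : HasFDerivAt (rho ψ j) (fderiv ℝ (rho ψ j) q) q :=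
    ((contDiff_rho ψ hψ j).differentiable (by simp) q).hasFDerivAt
  have h1 : HasFDerivAt (fun q => zc j (ψ (P q))) ((zc j).comp ((fderiv ℝ ψ (P q)).comp (fderiv ℝ P q))) q :=
    (zc j).hasFDerivAt.comp q (hψ1.comp q hP)
  have he : HasFDerivAt (fun q : ℝ × ℝ × ℝ => Complex.I * ((al j q : ℝ) : ℂ))
      (Complex.I • (Complex.ofRealCLM.comp (al j))) q :=
    (Complex.ofRealCLM.hasFDerivAt.comp q (al j).hasFDerivAt).const_mul Complex.I
  have h2 : HasFDerivAt (fun q => Complex.exp (Complex.I * (al j q : ℝ)) * rho ψ j q) _ q :=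
    he.cexp.mul hr
  have h3 : (fun q => zc j (ψ (P q))) = fun q => Complex.exp (Complex.I * (al j q : ℝ)) * rho ψ j q :=
    funext (exp_mul_rho ψ j)
  rw [h3] at h1
  have h4 := DFunLike.congr_fun (h1.unique h2) h
  have key : zc j (fderiv ℝ ψ (P q) (P' q h)) = Complex.exp (Complex.I * (al j q : ℝ)) *
      (Complex.I * (al j h : ℝ) * rho ψ j q + fderiv ℝ (rho ψ j) q h) := by
    simp only [ContinuousLinearMap.comp_apply, fderiv_P] at h4
    rw [h4]
    simp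
    ring
  refine ⟨key, ?_⟩
  have h5 : fderiv ℝ (rho ψ j) q h = Complex.exp (-(Complex.I * (al j q : ℝ))) *
      zc j ((fderiv ℝ ψ (P q) - ContinuousLinearMap.id ℝ (E 3)) (P' q h)) +
      Complex.I * (al j h : ℝ) * (1 - rho ψ j q) := by
    have e1 : Complex.exp (-(Complex.I * (al j q : ℝ))) * Complex.exp (Complex.I * (al j q : ℝ)) = 1 := by
      rw [← Complex.exp_add, neg_add_cancel, Complex.exp_zero]
    have e2 : (fderiv ℝ ψ (P q) - ContinuousLinearMap.id ℝ (E 3)) (P' q h) =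
        fderiv ℝ ψ (P q) (P' q h) - P' q h := rfl
    rw [e2, map_sub, key, hz']
    linear_combination (-(fderiv ℝ (rho ψ j) q h) - Complex.I * (al j h : ℝ) * rho ψ j q +
      Complex.I * (al j h : ℝ)) * e1
  rw [h5]
  refine (norm_add_le _ _).trans ?_
  rw [norm_mul, norm_exp_neg, one_mul, norm_mul, norm_mul, Complex.norm_I, one_mul,
    Complex.norm_real, Real.norm_eq_abs]
  have hδ : 0 ≤ δ := (norm_nonneg _).trans hc
  have k1 : ‖zc j ((fderiv ℝ ψ (P q) - ContinuousLinearMap.id ℝ (E 3)) (P' q h))‖ ≤ 12 * δ * ‖h‖ := by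
    refine (zc_norm_le _ _).trans ?_
    have := ((fderiv ℝ ψ (P q) - ContinuousLinearMap.id ℝ (E 3)).le_opNorm (P' q h)).trans
      (mul_le_mul hc' (P'_norm_le q h) (norm_nonneg _) hδ)
    linarith
  have k2 : |al j h| * ‖1 - rho ψ j q‖ ≤ ‖h‖ * (2 * δ) := by
    refine mul_le_mul (al_norm j h) ?_ (norm_nonneg _) (norm_nonneg _)
    rw [norm_sub_rev]
    exact rho_sub_one ψ δ j hz q hc
  linarith

/-- A symplectic map which is `C¹` close to the identity maps a point of `T² × [-1, 1]²` into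
`T² × [-1, 1]²`. -/
theorem core (ψ : E 3 → E 3) (hψ : ContDiff ℝ ∞ ψ)
    (hs : ∀ x u v, omega (fderiv ℝ ψ x u) (fderiv ℝ ψ x v) = omega u v)
    (hc : ∀ x ∈ closedBall (0 : E 3) 6, ‖ψ x - x‖ ≤ 1 / 1000)
    (hc' : ∀ x ∈ closedBall (0 : E 3) 6, ‖fderiv ℝ ψ x - ContinuousLinearMap.id ℝ (E 3)‖ ≤ 1 / 1000) :
    ∃ x ∈ R0, ψ x ∈ R0 := by
  obtain ⟨f, θ, hf, hθ⟩ := exists_primitive ψ hψ hs
  have hball : ∀ q : ℝ × ℝ × ℝ, |q.2.2| ≤ 1 → P q ∈ closedBall (0 : E 3) 6 := by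
    intro q hq
    simpa using P_norm_le q hq
  -- the second coordinate of the last factor
  let vv : ℝ × ℝ × ℝ → ℝ := fun q => (ψ (P q)) (2, 1)
  have hvv : ContDiff ℝ ∞ vv :=
    (EuclideanSpace.proj (𝕜 := ℝ) ((2 : Fin 3), (1 : Fin 2))).contDiff.comp (hψ.comp contDiff_P)
  let W : ℝ × ℝ × ℝ → ℝ := fun q => f (P q) - (1/2) * (Complex.log (rho ψ 0 q)).im -
    (1/2) * (Complex.log (rho ψ 1 q)).im
  have hcq : ∀ q : ℝ × ℝ × ℝ, |q.2.2| ≤ 1 → ‖ψ (P q) - P q‖ ≤ 1 / 1000 := fun q hq => hc _ (hball q hq)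
  have hcq' : ∀ q : ℝ × ℝ × ℝ, |q.2.2| ≤ 1 →
      ‖fderiv ℝ ψ (P q) - ContinuousLinearMap.id ℝ (E 3)‖ ≤ 1 / 1000 := fun q hq => hc' _ (hball q hq)
  have hcoord : ∀ (x : E 3) (i : Fin 3 × Fin 2), |x i| ≤ ‖x‖ := fun x i => by
    simpa using PiLp.norm_apply_le (p := 2) x i
  have hP21 : ∀ q : ℝ × ℝ × ℝ, (P q) (2, 1) = q.2.2 := by
    intro q
    have := congrArg Complex.im (zc_P2 q)
    rw [zc_im] at this
    rw [this]
    simp [al]
  have hP20 : ∀ q : ℝ × ℝ × ℝ, (P q) (2, 0) = 0 := by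
    intro q
    have := congrArg Complex.re (zc_P2 q)
    rw [zc_re] at this
    rw [this]
    simp
  have hvs : ∀ q : ℝ × ℝ × ℝ, |q.2.2| ≤ 1 → |vv q - q.2.2| ≤ 1 / 1000 := by
    intro q hq
    have h1 := (hcoord (ψ (P q) - P q) (2, 1)).trans (hcq q hq)
    rwa [PiLp.sub_apply, hP21] at h1
  -- the functions `rho` avoid the cut
  have hslit : ∀ (j : Fin 3), (∀ q, zc j (P q) = Complex.exp (Complex.I * (al j q : ℝ))) →
      ∀ q : ℝ × ℝ × ℝ, |q.2.2| ≤ 1 → rho ψ j q ∈ Complex.slitPlane := by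
    intro j hj q hq
    have h1 := rho_sub_one ψ (1/1000) j hj q (hcq q hq)
    left
    have h2 := (Complex.abs_re_le_norm (rho ψ j q - 1)).trans h1
    rw [Complex.sub_re, Complex.one_re, abs_le] at h2
    linarith [h2.1]
  -- periodicity
  have hper : ∀ (m n : ℤ) (a b s : ℝ), P (a + m * (2 * Real.pi), b + n * (2 * Real.pi), s) = P (a, b, s) ∧
      ∀ j : Fin 3, j ≠ 2 → rho ψ j (a + m * (2 * Real.pi), b + n * (2 * Real.pi), s) = rho ψ j (a, b, s) := by
    intro m n a b s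
    have e : ∀ (m : ℤ) (a : ℝ), Complex.exp (Complex.I * ((a + m * (2 * Real.pi) : ℝ) : ℂ)) =
        Complex.exp (Complex.I * (a : ℂ)) := by
      intro m a
      have : Complex.I * ((a + m * (2 * Real.pi) : ℝ) : ℂ) = Complex.I * a + m * (2 * Real.pi * Complex.I) := by
        push_cast; ring
      rw [this]
      exact Complex.exp_periodic.int_mul m _
    have h1 : P (a + m * (2 * Real.pi), b + n * (2 * Real.pi), s) = P (a, b, s) := by
      unfold P
      simp only [e]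
    refine ⟨h1, fun j hj => ?_⟩
    unfold rho
    rw [h1, Complex.exp_neg, Complex.exp_neg]
    fin_cases j
    · congr 2
      exact e m a
    · congr 2
      exact e n b
    · exact absurd rfl hj
  have hWper : ∀ (m n : ℤ) (a b s : ℝ), W (a + m * (2 * Real.pi), b + n * (2 * Real.pi), s) = W (a, b, s) := by
    intro m n a b s
    obtain ⟨h1, h2⟩ := hper m n a b s
    simp only [W]
    rw [h1, h2 0 (by decide), h2 1 (by decide)]
  have hvper : ∀ (m n : ℤ) (a b s : ℝ), vv (a + m * (2 * Real.pi), b + n * (2 * Real.pi), s) = vv (a, b, s) := by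
    intro m n a b s
    simp only [vv]
    rw [(hper m n a b s).1]
  -- strict derivative of `W`
  have hWd : ∀ q : ℝ × ℝ × ℝ, |q.2.2| ≤ 1 → HasStrictFDerivAt W
      ((θ (P q)).comp (fderiv ℝ P q) -
        (1/2 : ℝ) • (Complex.imCLM.comp (((rho ψ 0 q)⁻¹ • (1 : ℂ →L[ℝ] ℂ)).comp (fderiv ℝ (rho ψ 0) q))) -
        (1/2 : ℝ) • (Complex.imCLM.comp (((rho ψ 1 q)⁻¹ • (1 : ℂ →L[ℝ] ℂ)).comp (fderiv ℝ (rho ψ 1) q)))) q := by
    intro q hq
    have h1 : HasStrictFDerivAt (fun q => f (P q)) ((θ (P q)).comp (fderiv ℝ P q)) q :=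
      (hf (P q)).comp q (contDiff_P.contDiffAt.hasStrictFDerivAt (by simp))
    have h2 : ∀ j : Fin 3, (∀ q, zc j (P q) = Complex.exp (Complex.I * (al j q : ℝ))) →
        HasStrictFDerivAt (fun q => (Complex.log (rho ψ j q)).im)
          (Complex.imCLM.comp (((rho ψ j q)⁻¹ • (1 : ℂ →L[ℝ] ℂ)).comp (fderiv ℝ (rho ψ j) q))) q := by
      intro j hj
      have h3 := (Complex.hasStrictFDerivAt_log_real (hslit j hj q hq)).comp q
        ((contDiff_rho ψ hψ j).contDiffAt.hasStrictFDerivAt (by simp))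
      exact Complex.imCLM.hasStrictFDerivAt.comp q h3
    exact (h1.sub ((h2 0 zc_P0).const_mul (1/2))).sub ((h2 1 zc_P1).const_mul (1/2))
  -- the maximum
  let Q : Set (ℝ × ℝ × ℝ) := (Icc 0 (2 * Real.pi) ×ˢ (Icc 0 (2 * Real.pi) ×ˢ Icc (-1) 1)) ∩ {q | vv q = 0}
  have hQc : IsCompact Q := (isCompact_Icc.prod (isCompact_Icc.prod isCompact_Icc)).inter_right
    (isClosed_eq hvv.continuous continuous_const)
  have hQn : Q.Nonempty := by
    have hcont : ContinuousOn (fun s : ℝ => vv (0, 0, s)) (Icc (-1) 1) :=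
      (hvv.continuous.comp (by fun_prop)).continuousOn
    have h1 := hvs (0, 0, (-1 : ℝ)) (by simp)
    have h2 := hvs (0, 0, (1 : ℝ)) (by simp)
    rw [abs_le] at h1 h2
    have h3 : (0 : ℝ) ∈ Icc (vv (0, 0, (-1 : ℝ))) (vv (0, 0, (1 : ℝ))) :=
      ⟨by linarith [h1.2], by linarith [h2.1]⟩
    obtain ⟨s, hs, hs'⟩ := intermediate_value_Icc (by norm_num) hcont h3
    have hpi := Real.pi_pos
    exact ⟨(0, 0, s), ⟨⟨le_rfl, by positivity⟩, ⟨le_rfl, by positivity⟩, hs⟩, hs'⟩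
  have hWc : ContinuousOn W Q := by
    intro q hq
    exact (hWd q (abs_le.2 hq.1.2.2)).continuousAt.continuousWithinAt
  obtain ⟨q, hqQ, hqmax⟩ := hQc.exists_isMaxOn hQn hWc
  have hq1 : |q.2.2| ≤ 1 := abs_le.2 hqQ.1.2.2
  have hqv : vv q = 0 := hqQ.2
  have hqs : |q.2.2| ≤ 1 / 1000 := by
    have := hvs q hq1
    rwa [hqv, zero_sub, abs_neg] at this
  have hglob : ∀ p : ℝ × ℝ × ℝ, |p.2.2| ≤ 1 → vv p = 0 → W p ≤ W q := by
    rintro ⟨a, b, s⟩ hs hv
    have hpi : (0:ℝ) < 2 * Real.pi := by positivity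
    obtain ⟨m, hm, -⟩ := existsUnique_add_zsmul_mem_Ico hpi a 0
    obtain ⟨n, hn, -⟩ := existsUnique_add_zsmul_mem_Ico hpi b 0
    simp only [zsmul_eq_mul, zero_add] at hm hn
    rw [← hWper m n a b s]
    apply hqmax
    refine ⟨⟨Ico_subset_Icc_self hm, Ico_subset_Icc_self hn, abs_le.1 hs⟩, ?_⟩
    show vv _ = 0
    rw [hvper m n a b s]
    exact hv
  have hloc : IsLocalExtrOn W {x | vv x = vv q} q := by
    refine Or.inr ?_
    have h1 : ∀ᶠ p : ℝ × ℝ × ℝ in 𝓝 q, |p.2.2| < 1 := by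
      have : Continuous fun p : ℝ × ℝ × ℝ => |p.2.2| := by fun_prop
      exact this.continuousAt.eventually_lt continuousAt_const (by linarith)
    show ∀ᶠ p in 𝓝[{x | vv x = vv q}] q, W p ≤ W q
    rw [eventually_nhdsWithin_iff]
    filter_upwards [h1] with p hp hp2
    exact hglob p hp.le (hp2.trans hqv)
  obtain ⟨a, b, hab, hmul⟩ := hloc.exists_multipliers_of_hasStrictFDerivAt_1d
    (hvv.contDiffAt.hasStrictFDerivAt (by simp)) (hWd q hq1)
  -- notation at the point `q`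
  set r0 := rho ψ 0 q with hr0
  set r1 := rho ψ 1 q with hr1
  set L0 := fderiv ℝ (rho ψ 0) q with hL0
  set L1 := fderiv ℝ (rho ψ 1) q with hL1
  have b0 := rho_sub_one ψ (1/1000) 0 zc_P0 q (hcq q hq1)
  have b1 := rho_sub_one ψ (1/1000) 1 zc_P1 q (hcq q hq1)
  rw [← hr0] at b0
  rw [← hr1] at b1
  have hn : ∀ r : ℂ, ‖r - 1‖ ≤ 2 * (1/1000) → 1/2 ≤ ‖r‖ := by
    intro r hr
    have h1 : ‖(1 : ℂ)‖ ≤ ‖r‖ + ‖r - 1‖ := by
      have : (1 : ℂ) = r - (r - 1) := by ring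
      calc ‖(1:ℂ)‖ = ‖r - (r - 1)‖ := by rw [← this]
        _ ≤ _ := norm_sub_le _ _
    rw [norm_one] at h1
    linarith
  have n0 := hn r0 b0
  have n1 := hn r1 b1
  have d0 := rho_deriv ψ hψ (1/1000) 0 zc_P0 zc_P'0 q (hcq q hq1) (hcq' q hq1)
  have d1 := rho_deriv ψ hψ (1/1000) 1 zc_P1 zc_P'1 q (hcq q hq1) (hcq' q hq1)
  simp only [← hr0, ← hL0] at d0
  simp only [← hr1, ← hL1] at d1
  have hdv : ∀ h, fderiv ℝ vv q h = (fderiv ℝ ψ (P q) (P' q h)) (2, 1) := by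
    intro h
    have hP : HasFDerivAt P (fderiv ℝ P q) q := (contDiff_P.differentiable (by simp) q).hasFDerivAt
    have hψ1 : HasFDerivAt ψ (fderiv ℝ ψ (P q)) (P q) := (hψ.differentiable (by simp) _).hasFDerivAt
    have h1 : HasFDerivAt vv ((EuclideanSpace.proj (𝕜 := ℝ) ((2 : Fin 3), (1 : Fin 2))).comp
        ((fderiv ℝ ψ (P q)).comp (fderiv ℝ P q))) q :=
      (EuclideanSpace.proj (𝕜 := ℝ) ((2 : Fin 3), (1 : Fin 2))).hasFDerivAt.comp q (hψ1.comp q hP)
    rw [h1.fderiv]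
    show (fderiv ℝ ψ (P q) (fderiv ℝ P q h)) (2, 1) = _
    rw [fderiv_P]
  have hdv' : ∀ h, |fderiv ℝ vv q h - al 2 h| ≤ 6 / 1000 * ‖h‖ := by
    intro h
    have e1 : (P' q h) (2, 1) = al 2 h := by
      have := congrArg Complex.im (zc_P'2 q h)
      rw [zc_im] at this
      rw [this]
      simp
    have e2 : fderiv ℝ vv q h - al 2 h =
        ((fderiv ℝ ψ (P q) - ContinuousLinearMap.id ℝ (E 3)) (P' q h)) (2, 1) := by
      rw [hdv, ← e1]
      rfl
    rw [e2]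
    refine (hcoord _ _).trans ?_
    have := ((fderiv ℝ ψ (P q) - ContinuousLinearMap.id ℝ (E 3)).le_opNorm (P' q h)).trans
      (mul_le_mul (hcq' q hq1) (P'_norm_le q h) (norm_nonneg _) (by norm_num))
    linarith
  have hconj : ∀ (t : ℝ) (z w : ℂ), (starRingEnd ℂ (Complex.exp (Complex.I * t) * z)) *
      (Complex.exp (Complex.I * t) * w) = (starRingEnd ℂ z) * w := by
    intro t z w
    have h1 : (starRingEnd ℂ (Complex.exp (Complex.I * t))) * Complex.exp (Complex.I * t) = 1 := by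
      rw [mul_comm, Complex.mul_conj, Complex.normSq_eq_norm_sq, norm_exp]
      simp
    rw [map_mul]
    linear_combination (starRingEnd ℂ z) * w * h1
  have hinv : ∀ (r l : ℂ), 1/2 ≤ ‖r‖ → ((starRingEnd ℂ r) * l).im = ‖r‖ ^ 2 * (r⁻¹ * l).im := by
    intro r l hr
    have hr2 : r ≠ 0 := by
      rintro rfl
      simp at hr
      linarith
    have h1 : (starRingEnd ℂ r) = ((‖r‖ ^ 2 : ℝ) : ℂ) * r⁻¹ := by
      rw [eq_mul_inv_iff_mul_eq₀ hr2, mul_comm, Complex.mul_conj, Complex.normSq_eq_norm_sq]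
    rw [h1, mul_assoc, Complex.im_ofReal_mul]
  have hterm : ∀ (r l : ℂ) (t : ℝ), 1/2 ≤ ‖r‖ →
      ((starRingEnd ℂ r) * (Complex.I * t * r + l)).im = ‖r‖ ^ 2 * (t + (r⁻¹ * l).im) := by
    intro r l t hr
    rw [mul_add, Complex.add_im, hinv r l hr]
    have h1 : (starRingEnd ℂ r) * (Complex.I * t * r) = ((t * ‖r‖ ^ 2 : ℝ) : ℂ) * Complex.I := by
      have h2 : r * (starRingEnd ℂ r) = ((‖r‖ ^ 2 : ℝ) : ℂ) := by
        rw [Complex.mul_conj, Complex.normSq_eq_norm_sq]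
      push_cast
      push_cast at h2
      linear_combination Complex.I * t * h2
    rw [h1, Complex.mul_I_im, Complex.ofReal_re]
    ring
  -- the derivative of `W`
  set u' := (ψ (P q)) (2, 0) with hu'
  have hmain : ∀ h, ((θ (P q)).comp (fderiv ℝ P q) -
        (1/2 : ℝ) • (Complex.imCLM.comp ((r0⁻¹ • (1 : ℂ →L[ℝ] ℂ)).comp L0)) -
        (1/2 : ℝ) • (Complex.imCLM.comp ((r1⁻¹ • (1 : ℂ →L[ℝ] ℂ)).comp L1))) h =
      (1/2) * (‖r0‖ ^ 2 - 1) * (al 0 h + (r0⁻¹ * L0 h).im) +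
      (1/2) * (‖r1‖ ^ 2 - 1) * (al 1 h + (r1⁻¹ * L1 h).im) + (1/2) * u' * fderiv ℝ vv q h := by
    intro h
    have e1 : ((θ (P q)).comp (fderiv ℝ P q) -
        (1/2 : ℝ) • (Complex.imCLM.comp ((r0⁻¹ • (1 : ℂ →L[ℝ] ℂ)).comp L0)) -
        (1/2 : ℝ) • (Complex.imCLM.comp ((r1⁻¹ • (1 : ℂ →L[ℝ] ℂ)).comp L1))) h =
        θ (P q) (fderiv ℝ P q h) - (1/2) * (r0⁻¹ * L0 h).im - (1/2) * (r1⁻¹ * L1 h).im := rfl
    rw [e1, fderiv_P, hθ, omega_eq, omega_eq, Fin.sum_univ_three, Fin.sum_univ_three]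
    rw [(d0 h).1, (d1 h).1, exp_mul_rho ψ 0 q, exp_mul_rho ψ 1 q, ← hr0, ← hr1, hconj, hconj,
      hterm r0 (L0 h) (al 0 h) n0, hterm r1 (L1 h) (al 1 h) n1]
    have e2 : ((starRingEnd ℂ (zc 2 (ψ (P q)))) * zc 2 (fderiv ℝ ψ (P q) (P' q h))).im =
        u' * fderiv ℝ vv q h := by
      rw [Complex.mul_im, Complex.conj_re, Complex.conj_im, zc_re, zc_re, zc_im, zc_im, hdv]
      have : (ψ (P q)) (2, 1) = 0 := hqv
      rw [this]
      ring
    have e3 : ((starRingEnd ℂ (zc 2 (P q))) * zc 2 (P' q h)).im = 0 := by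
      rw [zc_P2, zc_P'2]
      simp
    have e4 : ((starRingEnd ℂ (zc 0 (P q))) * zc 0 (P' q h)).im = al 0 h := by
      rw [zc_P0, zc_P'0]
      have := hconj (al 0 q) 1 (Complex.I * (al 0 h : ℝ))
      rw [mul_one] at this
      rw [this]
      simp
    have e5 : ((starRingEnd ℂ (zc 1 (P q))) * zc 1 (P' q h)).im = al 1 h := by
      rw [zc_P1, zc_P'1]
      have := hconj (al 1 q) 1 (Complex.I * (al 1 h : ℝ))
      rw [mul_one] at this
      rw [this]
      simp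
    rw [e2, e3, e4, e5]
    ring
  have hmul2 : ∀ h, a * fderiv ℝ vv q h + b * ((1/2) * (‖r0‖ ^ 2 - 1) * (al 0 h + (r0⁻¹ * L0 h).im) +
      (1/2) * (‖r1‖ ^ 2 - 1) * (al 1 h + (r1⁻¹ * L1 h).im) + (1/2) * u' * fderiv ℝ vv q h) = 0 := by
    intro h
    have := DFunLike.congr_fun hmul h
    rw [← hmain h]
    exact this
  have hpt : ∀ j : Fin 3, ∃ h : ℝ × ℝ × ℝ, ‖h‖ ≤ 1 ∧ ∀ k, al k h = if k = j then 1 else 0 := by
    intro j
    fin_cases j
    · refine ⟨(1, 0, 0), by simp [Prod.norm_def], fun k => ?_⟩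
      fin_cases k <;> simp [al]
    · refine ⟨(0, 1, 0), by simp [Prod.norm_def], fun k => ?_⟩
      fin_cases k <;> simp [al]
    · refine ⟨(0, 0, 1), by simp [Prod.norm_def], fun k => ?_⟩
      fin_cases k <;> simp [al]
  choose e he1 he2 using hpt
  have hb : b ≠ 0 := by
    rintro rfl
    have h1 := hmul2 (e 2)
    have h2 := hdv' (e 2)
    rw [he2, if_pos rfl] at h2
    have h3 : 6 / 1000 * ‖e 2‖ ≤ 6 / 1000 := by linarith [he1 2]
    have h4 := abs_le.1 (h2.trans h3)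
    have h5 : fderiv ℝ vv q (e 2) ≠ 0 := by
      intro h6
      rw [h6] at h4
      linarith [h4.1]
    rw [zero_mul, add_zero] at h1
    rcases mul_eq_zero.1 h1 with h7 | h7
    · exact hab (by rw [h7]; rfl)
    · exact h5 h7
  have hml : ∀ (r l : ℂ), 1/2 ≤ ‖r‖ → ‖l‖ ≤ 14 * (1 / 1000) → |(r⁻¹ * l).im| ≤ 28 / 1000 := by
    intro r l hr hl
    refine (Complex.abs_im_le_norm _).trans ?_
    rw [norm_mul, norm_inv]
    have h1 : ‖r‖⁻¹ ≤ 2 := by
      rw [inv_le_comm₀ (by linarith) (by norm_num)]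
      linarith
    calc ‖r‖⁻¹ * ‖l‖ ≤ 2 * (14 * (1/1000)) := mul_le_mul h1 hl (norm_nonneg _) (by norm_num)
      _ = 28 / 1000 := by norm_num
  have hl0 : ∀ j, |(r0⁻¹ * L0 (e j)).im| ≤ 28 / 1000 := fun j =>
    hml r0 _ n0 ((d0 (e j)).2.trans (by nlinarith [he1 j, norm_nonneg (e j)]))
  have hl1 : ∀ j, |(r1⁻¹ * L1 (e j)).im| ≤ 28 / 1000 := fun j =>
    hml r1 _ n1 ((d1 (e j)).2.trans (by nlinarith [he1 j, norm_nonneg (e j)]))
  have hl2 : ∀ j, |fderiv ℝ vv q (e j) - al 2 (e j)| ≤ 28 / 1000 := fun j =>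
    (hdv' (e j)).trans (by nlinarith [he1 j, norm_nonneg (e j)])
  let m : Fin 3 → Fin 3 → ℝ := fun i j =>
    ![(r0⁻¹ * L0 (e j)).im, (r1⁻¹ * L1 (e j)).im, fderiv ℝ vv q (e j) - al 2 (e j)] i
  have hm : ∀ i j, |m i j| ≤ 28 / 1000 := by
    intro i j
    fin_cases i
    · exact hl0 j
    · exact hl1 j
    · exact hl2 j
  have hfin : ‖r0‖ ^ 2 - 1 = 0 ∧ ‖r1‖ ^ 2 - 1 = 0 := by
    have hk : ∀ j, (1/2) * (‖r0‖ ^ 2 - 1) * (al 0 (e j) + m 0 j) +
        (1/2) * (‖r1‖ ^ 2 - 1) * (al 1 (e j) + m 1 j) + (a / b + (1/2) * u') * (al 2 (e j) + m 2 j) = 0 := by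
      intro j
      have h1 := hmul2 (e j)
      have h2 : al 2 (e j) + m 2 j = fderiv ℝ vv q (e j) := by
        show al 2 (e j) + (fderiv ℝ vv q (e j) - al 2 (e j)) = _
        ring
      rw [h2]
      show (1/2) * (‖r0‖ ^ 2 - 1) * (al 0 (e j) + (r0⁻¹ * L0 (e j)).im) +
        (1/2) * (‖r1‖ ^ 2 - 1) * (al 1 (e j) + (r1⁻¹ * L1 (e j)).im) +
        (a / b + (1/2) * u') * fderiv ℝ vv q (e j) = 0
      field_simp
      field_simp at h1
      linear_combination h1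
    refine alg (κ := 28/1000) (by norm_num) m hm (c := a / b + (1/2) * u') ?_ ?_ ?_
    · have := hk 0
      rw [he2, he2, he2] at this
      simpa using this
    · have := hk 1
      rw [he2, he2, he2] at this
      simpa using this
    · have := hk 2
      rw [he2, he2, he2] at this
      simpa using this
  have hone : ∀ r : ℂ, ‖r‖ ^ 2 - 1 = 0 → ‖r‖ = 1 := by
    intro r hr
    have : ‖r‖ ^ 2 = 1 := by linarith
    nlinarith [norm_nonneg r]
  refine ⟨P q, ⟨?_, ?_, ?_, ?_⟩, ?_, ?_, ?_, ?_⟩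
  · rw [zc_P0, norm_exp]
  · rw [zc_P1, norm_exp]
  · rw [hP20]; simp
  · rw [hP21]; exact hq1
  · rw [exp_mul_rho, norm_mul, norm_exp, one_mul]
    exact hone _ hfin.1
  · rw [exp_mul_rho, norm_mul, norm_exp, one_mul]
    exact hone _ hfin.2
  · have h1 := (hcoord (ψ (P q) - P q) (2, 0)).trans (hcq q hq1)
    rw [PiLp.sub_apply, hP20, sub_zero] at h1
    linarith
  · have : (ψ (P q)) (2, 1) = 0 := hqv
    rw [this]
    simp

/-! ### Hamiltonian diffeomorphisms are symplectic -/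

/-- A smooth map with smooth inverse, preserving the standard form. -/
structure IsSymp {n : ℕ} (φ χ : E n → E n) : Prop where
  smooth : ContDiff ℝ ∞ φ
  smooth' : ContDiff ℝ ∞ χ
  left : ∀ x, χ (φ x) = x
  right : ∀ x, φ (χ x) = x
  symp : ∀ x u v, omega (fderiv ℝ φ x u) (fderiv ℝ φ x v) = omega u v

theorem symm_iso {n : ℕ} (H : ℝ → E n → ℝ) (Φ : ℝ → E n → E n)
    (hH : ContDiff ℝ ∞ (fun p : ℝ × E n => H p.1 p.2))
    (hΦ : ContDiff ℝ ∞ (fun p : ℝ × E n => Φ p.1 p.2)) (h0 : ∀ x, Φ 0 x = x)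
    (hf : ∀ t ∈ Icc (0 : ℝ) 1, ∀ x v, omega (deriv (fun s => Φ s x) t) v = fderiv ℝ (H t) (Φ t x) v)
    (x u v : E n) : omega (fderiv ℝ (Φ 1) x u) (fderiv ℝ (Φ 1) x v) = omega u v := by
  let F : ℝ × E n → E n := fun p => Φ p.1 p.2
  have hF : ContDiff ℝ ∞ F := hΦ
  have hF1 : ∀ p, HasFDerivAt F (fderiv ℝ F p) p := fun p => (hF.differentiable (by simp) p).hasFDerivAt
  have hF2c : ContDiff ℝ ∞ (fderiv ℝ F) := hF.fderiv_right (by simp)
  have hF2 : ∀ p, HasFDerivAt (fderiv ℝ F) (fderiv ℝ (fderiv ℝ F) p) p :=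
    fun p => (hF2c.differentiable (by simp) p).hasFDerivAt
  have hsymF : ∀ p a b, fderiv ℝ (fderiv ℝ F) p a b = fderiv ℝ (fderiv ℝ F) p b a := fun p a b =>
    (hF.contDiffAt.isSymmSndFDerivAt (by
      rw [minSmoothness_of_isRCLikeNormedField]
      exact WithTop.coe_le_coe.2 (le_top : (2:ℕ∞) ≤ ⊤))) a b
  -- partial derivatives
  have hx : ∀ t x u, fderiv ℝ (Φ t) x u = fderiv ℝ F (t, x) (0, u) := by
    intro t x u
    have h1 : HasFDerivAt (fun x => F (t, x)) ((fderiv ℝ F (t, x)).comp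
        ((0 : E n →L[ℝ] ℝ).prod (ContinuousLinearMap.id ℝ (E n)))) x :=
      (hF1 (t, x)).comp x ((hasFDerivAt_const t x).prodMk (hasFDerivAt_id x))
    have h2 : (fun x => F (t, x)) = Φ t := rfl
    rw [h2] at h1
    rw [h1.fderiv]
    rfl
  have ht : ∀ t x, deriv (fun s => Φ s x) t = fderiv ℝ F (t, x) (1, 0) := by
    intro t x
    have h0 : HasDerivAt (fun s : ℝ => (s, x)) ((1 : ℝ), (0 : E n)) t :=
      (hasDerivAt_id' t).prodMk (hasDerivAt_const t x)
    have h1 := HasFDerivAt.comp_hasDerivAt (f := fun s : ℝ => (s, x)) t (hF1 (t, x)) h0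
    exact h1.deriv
  have hy : ∀ t w, HasDerivAt (fun s => fderiv ℝ (Φ s) x w)
      (fderiv ℝ (fderiv ℝ F) (t, x) (1, 0) (0, w)) t := by
    intro t w
    have h1 : HasDerivAt (fun s => fderiv ℝ F (s, x)) (fderiv ℝ (fderiv ℝ F) (t, x) (1, 0)) t :=
      (hF2 (t, x)).comp_hasDerivAt t ((hasDerivAt_id' t).prodMk (hasDerivAt_const t x))
    have h2 := h1.clm_apply (hasDerivAt_const t ((0 : ℝ), w))
    simp only [map_zero, add_zero] at h2
    have h3 : (fun s => fderiv ℝ (Φ s) x w) = fun s => fderiv ℝ F (s, x) (0, w) := by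
      funext s
      exact hx s x w
    rw [h3]
    exact h2
  have hHt : ∀ t, ContDiff ℝ ∞ (H t) := fun t =>
    hH.comp (contDiff_const.prodMk contDiff_id : ContDiff ℝ ∞ (fun x : E n => (t, x)))
  have hsymH : ∀ t y a b, fderiv ℝ (fderiv ℝ (H t)) y a b = fderiv ℝ (fderiv ℝ (H t)) y b a :=
    fun t y a b => ((hHt t).contDiffAt.isSymmSndFDerivAt (by
      rw [minSmoothness_of_isRCLikeNormedField]
      exact WithTop.coe_le_coe.2 (le_top : (2:ℕ∞) ≤ ⊤))) a b
  -- the variational equation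
  have hvar : ∀ t ∈ Icc (0 : ℝ) 1, ∀ w z, omega (fderiv ℝ (fderiv ℝ F) (t, x) (1, 0) (0, w)) z =
      fderiv ℝ (fderiv ℝ (H t)) (Φ t x) (fderiv ℝ (Φ t) x w) z := by
    intro t htt w z
    have h1 : HasFDerivAt (fun y => fderiv ℝ F (t, y) (1, 0))
        ((ContinuousLinearMap.apply ℝ (E n) ((1 : ℝ), (0 : E n))).comp
          ((fderiv ℝ (fderiv ℝ F) (t, x)).comp
            ((0 : E n →L[ℝ] ℝ).prod (ContinuousLinearMap.id ℝ (E n))))) x :=
      (ContinuousLinearMap.apply ℝ (E n) ((1 : ℝ), (0 : E n))).hasFDerivAt.comp x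
        ((hF2 (t, x)).comp x ((hasFDerivAt_const t x).prodMk (hasFDerivAt_id x)))
    have h2 : HasFDerivAt (fun y => om n (fderiv ℝ F (t, y) (1, 0)) z) _ x :=
      ((ContinuousLinearMap.apply ℝ ℝ z).comp (om n)).hasFDerivAt.comp x h1
    have h3 : HasFDerivAt (fun y => fderiv ℝ (H t) (Φ t y) z)
        ((ContinuousLinearMap.apply ℝ ℝ z).comp ((fderiv ℝ (fderiv ℝ (H t)) (Φ t x)).comp
          (fderiv ℝ (Φ t) x))) x := by
      have hΦt : ContDiff ℝ ∞ (Φ t) :=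
        hΦ.comp (contDiff_const.prodMk contDiff_id : ContDiff ℝ ∞ (fun x : E n => (t, x)))
      have e1 : HasFDerivAt (fderiv ℝ (H t)) (fderiv ℝ (fderiv ℝ (H t)) (Φ t x)) (Φ t x) :=
        ((((hHt t).fderiv_right (m := ∞) (by simp)).differentiable (by simp)) _).hasFDerivAt
      exact (ContinuousLinearMap.apply ℝ ℝ z).hasFDerivAt.comp x
        (e1.comp x (hΦt.differentiable (by simp) x).hasFDerivAt)
    have h4 : (fun y => om n (fderiv ℝ F (t, y) (1, 0)) z) = fun y => fderiv ℝ (H t) (Φ t y) z := by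
      funext y
      rw [om_apply, ← ht, hf t htt]
    rw [h4] at h2
    have h5 := DFunLike.congr_fun (h2.unique h3) w
    have h6 : fderiv ℝ (fderiv ℝ F) (t, x) (1, 0) (0, w) = fderiv ℝ (fderiv ℝ F) (t, x) (0, w) (1, 0) :=
      hsymF _ _ _
    rw [h6]
    exact h5
  -- conservation
  let G : ℝ → ℝ := fun t => omega (fderiv ℝ (Φ t) x u) (fderiv ℝ (Φ t) x v)
  have hG : ∀ t ∈ Icc (0 : ℝ) 1, HasDerivAt G 0 t := by
    intro t htt
    have h1 : HasDerivAt (fun s => om n (fderiv ℝ (Φ s) x u)) _ t := (om n).hasFDerivAt.comp_hasDerivAt t (hy t u)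
    have h2 := h1.clm_apply (hy t v)
    have h3 : om n (fderiv ℝ (fderiv ℝ F) (t, x) (1, 0) (0, u)) (fderiv ℝ (Φ t) x v) +
        om n (fderiv ℝ (Φ t) x u) (fderiv ℝ (fderiv ℝ F) (t, x) (1, 0) (0, v)) = 0 := by
      rw [om_apply, om_apply, omega_swap (fderiv ℝ (Φ t) x u), hvar t htt, hvar t htt, hsymH]
      ring
    rw [h3] at h2
    exact h2
  have hconst := constant_of_has_deriv_right_zero (f := G) (a := 0) (b := 1)
    (fun t htt => (hG t htt).continuousAt.continuousWithinAt)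
    (fun t htt => (hG t (Ico_subset_Icc_self htt)).hasDerivWithinAt)
  have h1 := hconst 1 (by simp)
  have h2 : ∀ w, fderiv ℝ (Φ 0) x w = w := by
    intro w
    have : Φ 0 = id := funext h0
    rw [this, fderiv_id]
    rfl
  show G 1 = _
  rw [h1]
  show omega (fderiv ℝ (Φ 0) x u) (fderiv ℝ (Φ 0) x v) = _
  rw [h2, h2]

theorem IsHamiltonian.isSymp {n : ℕ} {φ : E n → E n} (h : IsHamiltonian φ) : ∃ χ, IsSymp φ χ := by
  obtain ⟨H, Φ, Ψ, hH, -, hΦ, hΨ, hinv, h0, hf, rfl⟩ := h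
  have h1 : ∀ Φ : ℝ → E n → E n, ContDiff ℝ ∞ (fun p : ℝ × E n => Φ p.1 p.2) → ContDiff ℝ ∞ (Φ 1) :=
    fun Φ hΦ => hΦ.comp (contDiff_const.prodMk contDiff_id : ContDiff ℝ ∞ (fun x : E n => ((1 : ℝ), x)))
  exact ⟨Ψ 1, h1 Φ hΦ, h1 Ψ hΨ, fun x => (hinv 1 x).1, fun x => (hinv 1 x).2,
    symm_iso H Φ hH hΦ h0 hf⟩

/-! ### Countability -/

/-- If `K` contains `T² × [-1, 1]²` then all its packings by symplectic maps are countable. -/
theorem countable_of_R0 (K : Set (E 3)) (hK : R0 ⊆ K) {ι : Type u} (F : ι → Set (E 3))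
    (hF : IsPacking K F) : Countable ι := by
  classical
  obtain ⟨h1, h2⟩ := hF
  choose φ hφ hFφ using h1
  choose χ hχ using fun i => (hφ i).isSymp
  -- the first jets
  let J : ι → C(E 3, E 3 × (E 3 →L[ℝ] E 3)) := fun i =>
    ⟨fun x => (φ i x, fderiv ℝ (φ i) x), (hχ i).smooth.continuous.prodMk
      ((hχ i).smooth.continuous_fderiv (by simp))⟩
  let O : ι → Set (E 3 × (E 3 × (E 3 →L[ℝ] E 3))) := fun i =>
    {p | ‖χ i p.2.1 - p.1‖ < 1 / 1000 ∧
      ‖(fderiv ℝ (χ i) p.2.1).comp p.2.2 - ContinuousLinearMap.id ℝ (E 3)‖ < 1 / 1000}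
  have hO : ∀ i, IsOpen (O i) := by
    intro i
    have c1 : Continuous fun p : E 3 × (E 3 × (E 3 →L[ℝ] E 3)) => ‖χ i p.2.1 - p.1‖ :=
      (((hχ i).smooth'.continuous.comp (continuous_fst.comp continuous_snd)).sub continuous_fst).norm
    have c2 : Continuous fun p : E 3 × (E 3 × (E 3 →L[ℝ] E 3)) =>
        ‖(fderiv ℝ (χ i) p.2.1).comp p.2.2 - ContinuousLinearMap.id ℝ (E 3)‖ :=
      (((((hχ i).smooth'.continuous_fderiv (by simp)).comp (continuous_fst.comp continuous_snd)).clm_comp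
        (continuous_snd.comp continuous_snd)).sub continuous_const).norm
    exact (isOpen_lt c1 continuous_const).inter (isOpen_lt c2 continuous_const)
  let U : ι → Set C(E 3, E 3 × (E 3 →L[ℝ] E 3)) := fun i =>
    {g | MapsTo (fun x => (x, g x)) (closedBall (0 : E 3) 6) (O i)}
  have hU : ∀ i, IsOpen (U i) := by
    intro i
    have c1 : Continuous fun g : C(E 3, E 3 × (E 3 →L[ℝ] E 3)) =>
        (ContinuousMap.id (E 3)).prodMk g := by
      refine ContinuousMap.continuous_of_continuous_uncurry _ ?_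
      show Continuous fun p : C(E 3, E 3 × (E 3 →L[ℝ] E 3)) × E 3 => (p.2, p.1 p.2)
      fun_prop
    exact (ContinuousMap.isOpen_setOfPred_mapsTo (isCompact_closedBall (0 : E 3) 6) (hO i)).preimage c1
  have hJU : ∀ i, J i ∈ U i := by
    intro i x _
    refine ⟨?_, ?_⟩
    · show ‖χ i (φ i x) - x‖ < _
      rw [(hχ i).left, sub_self, norm_zero]
      norm_num
    · show ‖(fderiv ℝ (χ i) (φ i x)).comp (fderiv ℝ (φ i) x) - ContinuousLinearMap.id ℝ (E 3)‖ < _
      have e1 : HasFDerivAt (fun x => χ i (φ i x)) ((fderiv ℝ (χ i) (φ i x)).comp (fderiv ℝ (φ i) x)) x :=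
        HasFDerivAt.comp x ((hχ i).smooth'.differentiable (by simp) _).hasFDerivAt
          ((hχ i).smooth.differentiable (by simp) _).hasFDerivAt
      have e2 : (fun x => χ i (φ i x)) = fun x => x := funext (hχ i).left
      rw [e2] at e1
      rw [e1.unique (hasFDerivAt_id x), sub_self, norm_zero]
      norm_num
  have hinj : ∀ i j, J j ∈ U i → i = j := by
    intro i j hij
    by_contra hne
    -- `ψ = χ i ∘ φ j`
    have hsχ : ∀ y u v, omega (fderiv ℝ (χ i) y u) (fderiv ℝ (χ i) y v) = omega u v := by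
      intro y u v
      have e1 : HasFDerivAt (fun y => φ i (χ i y)) ((fderiv ℝ (φ i) (χ i y)).comp (fderiv ℝ (χ i) y)) y :=
        HasFDerivAt.comp y ((hχ i).smooth.differentiable (by simp) _).hasFDerivAt
          ((hχ i).smooth'.differentiable (by simp) _).hasFDerivAt
      have e2 : (fun y => φ i (χ i y)) = fun y => y := funext (hχ i).right
      rw [e2] at e1
      have e3 := e1.unique (hasFDerivAt_id y)
      have e4 : ∀ w, fderiv ℝ (φ i) (χ i y) (fderiv ℝ (χ i) y w) = w := fun w => DFunLike.congr_fun e3 w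
      have e5 := (hχ i).symp (χ i y) (fderiv ℝ (χ i) y u) (fderiv ℝ (χ i) y v)
      rw [e4, e4] at e5
      exact e5.symm
    have hd : ∀ x, fderiv ℝ (fun x => χ i (φ j x)) x = (fderiv ℝ (χ i) (φ j x)).comp (fderiv ℝ (φ j) x) := by
      intro x
      exact (HasFDerivAt.comp x ((hχ i).smooth'.differentiable (by simp) _).hasFDerivAt
          ((hχ j).smooth.differentiable (by simp) _).hasFDerivAt).fderiv
    obtain ⟨x, hx, hx'⟩ := core (fun x => χ i (φ j x)) ((hχ i).smooth'.comp (hχ j).smooth)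
      (by
        intro x u v
        rw [hd]
        show omega (fderiv ℝ (χ i) (φ j x) (fderiv ℝ (φ j) x u))
          (fderiv ℝ (χ i) (φ j x) (fderiv ℝ (φ j) x v)) = _
        rw [hsχ, (hχ j).symp])
      (fun x hx => (hij hx).1.le)
      (by
        intro x hx
        rw [hd]
        exact (hij hx).2.le)
    have m1 : φ j x ∈ F j := by
      rw [hFφ j]
      exact mem_image_of_mem _ (hK hx)
    have m2 : φ j x ∈ F i := by
      rw [hFφ i]
      exact ⟨χ i (φ j x), hK hx', (hχ i).right _⟩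
    exact (h2 i j hne).le_bot ⟨m2, m1⟩
  -- an injection into a countable basis
  have hb := TopologicalSpace.isBasis_countableBasis C(E 3, E 3 × (E 3 →L[ℝ] E 3))
  have hex : ∀ i, ∃ B ∈ TopologicalSpace.countableBasis C(E 3, E 3 × (E 3 →L[ℝ] E 3)),
      J i ∈ B ∧ B ⊆ U i := fun i => hb.exists_subset_of_mem_open (hJU i) (hU i)
  choose B hB1 hB2 hB3 using hex
  have hcount := (TopologicalSpace.countable_countableBasis C(E 3, E 3 × (E 3 →L[ℝ] E 3))).to_subtype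
  refine Function.Injective.countable (f := fun i =>
    (⟨B i, hB1 i⟩ : TopologicalSpace.countableBasis C(E 3, E 3 × (E 3 →L[ℝ] E 3)))) ?_
  intro i j hij
  have h3 : B i = B j := congrArg Subtype.val hij
  exact hinj i j (hB3 i (h3 ▸ hB2 j))

/-! ### The submanifold -/

/-- The profile: smooth, and zero exactly on `[-1, 1]`. -/
def kf (t : ℝ) : ℝ := 4 * expNegInvGlue (t ^ 2 - 1)

theorem kf_contDiff : ContDiff ℝ ∞ kf :=
  contDiff_const.mul (expNegInvGlue.contDiff.comp ((contDiff_id.pow 2).sub contDiff_const))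

theorem kf_nonneg (t : ℝ) : 0 ≤ kf t := mul_nonneg (by norm_num) (expNegInvGlue.nonneg _)

theorem kf_zero {t : ℝ} (ht : |t| ≤ 1) : kf t = 0 := by
  have h1 : t ^ 2 ≤ 1 := by
    rw [← sq_abs]
    nlinarith [abs_nonneg t]
  unfold kf
  rw [expNegInvGlue.zero_of_nonpos (by linarith), mul_zero]

theorem kf_large {t : ℝ} (ht : 2 ≤ |t|) : 1 < kf t := by
  have h1 : 4 ≤ t ^ 2 := by
    rw [← sq_abs]
    nlinarith [abs_nonneg t]
  have h2 : ¬ (t ^ 2 - 1 ≤ 0) := by linarith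
  unfold kf expNegInvGlue
  rw [if_neg h2]
  have h3 : (t ^ 2 - 1)⁻¹ ≤ 1 / 3 := by
    rw [inv_le_comm₀ (by linarith) (by norm_num)]
    linarith
  have h4 := Real.add_one_le_exp (-(t ^ 2 - 1)⁻¹)
  linarith

theorem kf_deriv {t : ℝ} (ht : 0 < kf t) : deriv kf t ≠ 0 := by
  have h1 : 0 < t ^ 2 - 1 := by
    by_contra h
    unfold kf at ht
    rw [expNegInvGlue.zero_of_nonpos (by linarith)] at ht
    simp at ht
  have h2 : kf =ᶠ[𝓝 t] fun t => 4 * Real.exp (-(t ^ 2 - 1)⁻¹) := by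
    have h3 : ∀ᶠ s in 𝓝 t, 0 < s ^ 2 - 1 := by
      have : Continuous fun s : ℝ => s ^ 2 - 1 := by fun_prop
      exact continuousAt_const.eventually_lt this.continuousAt h1
    filter_upwards [h3] with s hs
    unfold kf expNegInvGlue
    rw [if_neg (by linarith)]
  rw [h2.deriv_eq]
  have h4 : HasDerivAt (fun t : ℝ => t ^ 2 - 1) (2 * t) t := by
    simpa using (hasDerivAt_pow 2 t).sub_const (1 : ℝ)
  have h5 := (((h4.inv h1.ne').neg).exp).const_mul (4 : ℝ)
  have h6 : deriv (fun t : ℝ => 4 * Real.exp (-(t ^ 2 - 1)⁻¹)) t = _ := h5.deriv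
  rw [h6]
  have ht0 : t ≠ 0 := by
    rintro rfl
    norm_num at h1
  have h7 : (t ^ 2 - 1) ≠ 0 := h1.ne'
  have h8 : Real.exp (-(t ^ 2 - 1)⁻¹) ≠ 0 := (Real.exp_pos _).ne'
  simp only [ne_eq, mul_eq_zero, neg_eq_zero, div_eq_zero_iff, not_or]
  refine ⟨by norm_num, h8, ⟨by norm_num, ht0⟩, ?_⟩
  simpa using h7

theorem exists_kf_one : ∃ t : ℝ, kf t = 1 := by
  have h1 : kf 0 = 0 := kf_zero (by simp)
  have h2 : 1 < kf 2 := kf_large (by norm_num)
  obtain ⟨t, -, ht⟩ := intermediate_value_Icc (by norm_num : (0:ℝ) ≤ 2)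
    kf_contDiff.continuous.continuousOn (show (1:ℝ) ∈ Icc (kf 0) (kf 2) from ⟨by rw [h1]; norm_num, h2.le⟩)
  exact ⟨t, ht⟩

/-- The equations: `gf 0 = |z₁|² + k(u) - 1` and `gf 1 = |z₂|² + k(v) - 1`. -/
def gf (i : Fin 2) (x : E 3) : ℝ :=
  x (i.castSucc, 0) ^ 2 + x (i.castSucc, 1) ^ 2 + kf (x (2, i)) - 1

/-- The gradients. -/
def nf (i : Fin 2) (x : E 3) : E 3 :=
  (2 * x (i.castSucc, 0)) • EuclideanSpace.single (i.castSucc, 0) (1 : ℝ) +
    (2 * x (i.castSucc, 1)) • EuclideanSpace.single (i.castSucc, 1) (1 : ℝ) +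
    (deriv kf (x (2, i))) • EuclideanSpace.single (2, i) (1 : ℝ)

theorem contDiff_coord (i : Fin 3 × Fin 2) : ContDiff ℝ ∞ (fun x : E 3 => x i) :=
  (EuclideanSpace.proj (𝕜 := ℝ) i).contDiff

theorem gf_contDiff (i : Fin 2) : ContDiff ℝ ∞ (gf i) := by
  unfold gf
  exact ((((contDiff_coord _).pow 2).add ((contDiff_coord _).pow 2)).add
    (kf_contDiff.comp (contDiff_coord _))).sub contDiff_const

theorem nf_contDiff (i : Fin 2) : ContDiff ℝ ∞ (nf i) := by
  unfold nf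
  have h1 : ContDiff ℝ ∞ (deriv kf) := by
    have := kf_contDiff
    rw [contDiff_infty_iff_deriv] at this
    exact this.2
  exact (((contDiff_const.mul (contDiff_coord _)).smul contDiff_const).add
    ((contDiff_const.mul (contDiff_coord _)).smul contDiff_const)).add
    ((h1.comp (contDiff_coord _)).smul contDiff_const)

theorem gf_hasDerivAt (i : Fin 2) (c : ℝ → E 3) (h : E 3) (t : ℝ) (hc : HasDerivAt c h t) :
    HasDerivAt (fun s => gf i (c s)) (2 * c t (i.castSucc, 0) * h (i.castSucc, 0) +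
      2 * c t (i.castSucc, 1) * h (i.castSucc, 1) + deriv kf (c t (2, i)) * h (2, i)) t := by
  have h1 : ∀ j, HasDerivAt (fun s => c s j) (h j) t := fun j =>
    (EuclideanSpace.proj (𝕜 := ℝ) j).hasFDerivAt.comp_hasDerivAt t hc
  have h2 : HasDerivAt (fun s => kf (c s (2, i))) (deriv kf (c t (2, i)) * h (2, i)) t :=
    HasDerivAt.comp (h₂ := kf) t ((kf_contDiff.differentiable (by simp) _).hasDerivAt) (h1 _)
  unfold gf
  refine (((((h1 (i.castSucc, 0)).pow 2).add ((h1 (i.castSucc, 1)).pow 2)).add h2).sub_const 1).congr_deriv ?_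
  simp

theorem gf_fderiv (i : Fin 2) (x h : E 3) : fderiv ℝ (gf i) x h = 2 * x (i.castSucc, 0) * h (i.castSucc, 0) +
      2 * x (i.castSucc, 1) * h (i.castSucc, 1) + deriv kf (x (2, i)) * h (2, i) := by
  have hc : HasDerivAt (fun s : ℝ => x + s • h) h 0 := by
    simpa using ((hasDerivAt_id (0:ℝ)).smul_const h).const_add x
  have h1 := gf_hasDerivAt i _ h 0 hc
  simp only [zero_smul, add_zero] at h1
  have hx : HasFDerivAt (gf i) (fderiv ℝ (gf i) x) (x + (0:ℝ) • h) := by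
    rw [zero_smul, add_zero]
    exact ((gf_contDiff i).differentiable (by simp) x).hasFDerivAt
  have h2 : HasDerivAt (fun s : ℝ => gf i (x + s • h)) (fderiv ℝ (gf i) x h) 0 :=
    HasFDerivAt.comp_hasDerivAt (f := fun s : ℝ => x + s • h) 0 hx hc
  exact h2.unique h1

/-- The submanifold `K`, a product of two spheres. -/
def K : Set (E 3) := {x | gf 0 x = 0 ∧ gf 1 x = 0}

theorem mem_K_iff (x : E 3) : x ∈ K ↔ ∀ i, gf i x = 0 := by
  rw [Fin.forall_fin_two]
  rfl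

theorem nf_apply (i : Fin 2) (x : E 3) (j : Fin 3 × Fin 2) : nf i x j =
    (if j = (i.castSucc, 0) then 2 * x (i.castSucc, 0) else 0) +
    (if j = (i.castSucc, 1) then 2 * x (i.castSucc, 1) else 0) +
    (if j = (2, i) then deriv kf (x (2, i)) else 0) := by
  unfold nf
  simp

theorem gf_nf (i j : Fin 2) (x : E 3) : fderiv ℝ (gf i) x (nf j x) = if i = j then
    4 * x (i.castSucc, 0) ^ 2 + 4 * x (i.castSucc, 1) ^ 2 + deriv kf (x (2, i)) ^ 2 else 0 := by
  rw [gf_fderiv, nf_apply, nf_apply, nf_apply]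
  fin_cases i <;> fin_cases j <;> simp <;> ring

theorem pos_on_K (i : Fin 2) (x : E 3) (hx : x ∈ K) :
    0 < 4 * x (i.castSucc, 0) ^ 2 + 4 * x (i.castSucc, 1) ^ 2 + deriv kf (x (2, i)) ^ 2 := by
  have h1 := (mem_K_iff x).1 hx i
  unfold gf at h1
  by_cases h2 : x (i.castSucc, 0) ^ 2 + x (i.castSucc, 1) ^ 2 = 0
  · have h3 : 0 < kf (x (2, i)) := by linarith
    have h4 := kf_deriv h3
    have h5 : 0 < deriv kf (x (2, i)) ^ 2 := by positivity
    linarith
  · have h3 : 0 < x (i.castSucc, 0) ^ 2 + x (i.castSucc, 1) ^ 2 :=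
      lt_of_le_of_ne (by positivity) (Ne.symm h2)
    nlinarith [sq_nonneg (deriv kf (x (2, i)))]

theorem tangent_gf (x h : E 3) (hh : h ∈ tangent K x) (i : Fin 2) : fderiv ℝ (gf i) x h = 0 := by
  obtain ⟨c, hc, rfl, hcK, rfl⟩ := hh
  have hd : HasDerivAt c (deriv c 0) 0 := (hc.differentiable (by simp) 0).hasDerivAt
  have h1 := gf_hasDerivAt i c _ 0 hd
  have h2 : (fun s => gf i (c s)) =ᶠ[𝓝 0] fun _ => (0 : ℝ) := by
    filter_upwards [hcK] with t ht
    exact (mem_K_iff _).1 ht i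
  have h3 := h2.deriv_eq
  rw [h1.deriv, deriv_const] at h3
  rw [gf_fderiv]
  exact h3

theorem K_isSubmanifold : IsSubmanifold 4 K := by
  refine ⟨by norm_num, fun x hx => ?_⟩
  let g : E 3 → EuclideanSpace ℝ (Fin 2) := fun x => WithLp.toLp 2 (fun i => gf i x)
  have hg : ContDiff ℝ ∞ g := by
    rw [contDiff_euclidean]
    exact fun i => gf_contDiff i
  have hgd : ∀ h i, fderiv ℝ g x h i = fderiv ℝ (gf i) x h := by
    intro h i
    have h1 : HasFDerivAt (fun y => g y i) ((EuclideanSpace.proj (𝕜 := ℝ) i).comp (fderiv ℝ g x)) x :=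
      (EuclideanSpace.proj (𝕜 := ℝ) i).hasFDerivAt.comp x (hg.differentiable (by simp) x).hasFDerivAt
    have h2 : (fun y => g y i) = gf i := rfl
    rw [h2] at h1
    rw [h1.fderiv]
    rfl
  refine ⟨univ, g, isOpen_univ, mem_univ _, hg.contDiffOn, ?_, fun y _ => ?_⟩
  · intro w
    let N : Fin 2 → ℝ := fun i => 4 * x (i.castSucc, 0) ^ 2 + 4 * x (i.castSucc, 1) ^ 2 +
      deriv kf (x (2, i)) ^ 2
    have hN : ∀ i, N i ≠ 0 := fun i => (pos_on_K i x hx).ne'
    refine ⟨(w 0 / N 0) • nf 0 x + (w 1 / N 1) • nf 1 x, ?_⟩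
    ext i
    rw [hgd, map_add, map_smul, map_smul, gf_nf, gf_nf]
    fin_cases i
    · show w 0 / N 0 * (if (0 : Fin 2) = 0 then N 0 else 0) +
        w 1 / N 1 * (if (0 : Fin 2) = 1 then N 0 else 0) = w 0
      rw [if_pos rfl, if_neg (by decide), div_mul_cancel₀ _ (hN 0), mul_zero, add_zero]
    · show w 0 / N 0 * (if (1 : Fin 2) = 0 then N 1 else 0) +
        w 1 / N 1 * (if (1 : Fin 2) = 1 then N 1 else 0) = w 1
      rw [if_pos rfl, if_neg (by decide), div_mul_cancel₀ _ (hN 1), mul_zero, zero_add]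
  · rw [mem_K_iff]
    constructor
    · intro h
      ext i
      exact h i
    · intro h i
      have := congrArg (fun w : EuclideanSpace ℝ (Fin 2) => w i) h
      exact this

theorem K_isCompact : IsCompact K := by
  have hcl : IsClosed K := by
    have h1 : IsClosed {x | gf 0 x = 0} := isClosed_eq (gf_contDiff 0).continuous continuous_const
    have h2 : IsClosed {x | gf 1 x = 0} := isClosed_eq (gf_contDiff 1).continuous continuous_const
    exact h1.inter h2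
  have hb : ∀ x ∈ K, ∀ j : Fin 3 × Fin 2, |x j| ≤ 2 := by
    intro x hx
    have h1 : ∀ i : Fin 2, |x (i.castSucc, 0)| ≤ 2 ∧ |x (i.castSucc, 1)| ≤ 2 ∧ |x (2, i)| ≤ 2 := by
      intro i
      have h2 := (mem_K_iff x).1 hx i
      unfold gf at h2
      have h3 := kf_nonneg (x (2, i))
      refine ⟨?_, ?_, ?_⟩
      · rw [abs_le]
        constructor <;> nlinarith [sq_nonneg (x (i.castSucc, 0)), sq_nonneg (x (i.castSucc, 1))]
      · rw [abs_le]
        constructor <;> nlinarith [sq_nonneg (x (i.castSucc, 0)), sq_nonneg (x (i.castSucc, 1))]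
      · by_contra h
        have := kf_large (not_le.1 h).le
        nlinarith [sq_nonneg (x (i.castSucc, 0)), sq_nonneg (x (i.castSucc, 1))]
    rintro ⟨a, b⟩
    have h20 := h1 0
    have h21 := h1 1
    fin_cases a <;> fin_cases b
    · exact h20.1
    · exact h20.2.1
    · exact h21.1
    · exact h21.2.1
    · exact h20.2.2
    · exact h21.2.2
  refine (isCompact_closedBall (0 : E 3) 5).of_isClosed_subset hcl fun x hx => ?_
  rw [mem_closedBall_zero_iff, EuclideanSpace.norm_eq]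
  rw [Real.sqrt_le_left (by norm_num)]
  calc ∑ j, ‖x j‖ ^ 2 ≤ ∑ j : Fin 3 × Fin 2, (2:ℝ) ^ 2 := by
        refine Finset.sum_le_sum fun j _ => ?_
        exact pow_le_pow_left₀ (norm_nonneg _) (hb x hx j) 2
    _ = 24 := by simp; norm_num
    _ ≤ 5 ^ 2 := by norm_num

theorem R0_subset_K : R0 ⊆ K := by
  rintro x ⟨h0, h1, h2, h3⟩
  have e : ∀ z : ℂ, ‖z‖ = 1 → z.re ^ 2 + z.im ^ 2 = 1 := by
    intro z hz
    have := Complex.normSq_eq_norm_sq z
    rw [hz, Complex.normSq_apply] at this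
    nlinarith
  have e0 := e _ h0
  have e1 := e _ h1
  rw [zc_re, zc_im] at e0 e1
  refine ⟨?_, ?_⟩
  · show x (0, 0) ^ 2 + x (0, 1) ^ 2 + kf (x (2, 0)) - 1 = 0
    rw [kf_zero h2, e0]
    norm_num
  · show x (1, 0) ^ 2 + x (1, 1) ^ 2 + kf (x (2, 1)) - 1 = 0
    rw [kf_zero h3, e1]
    norm_num

theorem K_nonempty : K.Nonempty := by
  refine ⟨io 0 1 + io 1 1, R0_subset_K ⟨?_, ?_, ?_, ?_⟩⟩
  · rw [map_add, zc_io, zc_io]; simp
  · rw [map_add, zc_io, zc_io]; simp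
  · rw [← zc_re, map_add, zc_io, zc_io]; simp
  · rw [← zc_im, map_add, zc_io, zc_io]; simp

theorem K_hasNormalSection : HasNormalSection K := by
  refine ⟨nf 0, nf_contDiff 0, fun x hx h => ?_⟩
  have h1 := tangent_gf x _ h 0
  rw [gf_nf, if_pos rfl] at h1
  exact (pos_on_K 0 x hx).ne' h1

theorem K_not_coisotropic : ¬ IsCoisotropic K := by
  intro hco
  obtain ⟨t, ht⟩ := exists_kf_one
  let x : E 3 := EuclideanSpace.single (2, 0) t + EuclideanSpace.single (2, 1) t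
  have hx20 : x (2, 0) = t := by simp [x]
  have hx21 : x (2, 1) = t := by simp [x]
  have hx00 : ∀ (i : Fin 2) (j : Fin 2), x (i.castSucc, j) = 0 := by
    intro i j
    fin_cases i <;> fin_cases j <;> simp [x]
  have hxK : x ∈ K := by
    rw [mem_K_iff]
    intro i
    unfold gf
    rw [hx00, hx00]
    fin_cases i
    · simp [hx20, ht]
    · simp [hx21, ht]
  have hdk : deriv kf t ≠ 0 := kf_deriv (by rw [ht]; exact one_pos)
  -- the tangent vectors have no component in the last factor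
  have htan : ∀ w ∈ tangent K x, w (2, 0) = 0 ∧ w (2, 1) = 0 := by
    intro w hw
    have h0 := tangent_gf x w hw 0
    have h1 := tangent_gf x w hw 1
    rw [gf_fderiv, hx00, hx00] at h0 h1
    rw [hx20] at h0
    rw [hx21] at h1
    constructor
    · simpa [hdk] using h0
    · simpa [hdk] using h1
  have h1 := hco x hxK (EuclideanSpace.single (2, 0) 1) (by
    intro w hw
    obtain ⟨h0, h1⟩ := htan w hw
    unfold omega
    rw [Fin.sum_univ_three]
    simp [h1])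
  have h2 := (htan _ h1).1
  simp at h2

/-- **Q1 is false.** There is a closed submanifold `K` of dimension 4 of the symplectic manifold `ℝ⁶`,
whose normal bundle has a nowhere vanishing section, which is not coisotropic and all of whose packings
are countable. -/
theorem result : ∃ K : Set (E 3), K.Nonempty ∧ IsCompact K ∧ IsSubmanifold 4 K ∧
    HasNormalSection K ∧ ¬ IsCoisotropic K ∧
    ∀ (ι : Type u) (F : ι → Set (E 3)), IsPacking K F → Countable ι :=
  ⟨K, K_nonempty, K_isCompact, K_isSubmanifold, K_hasNormalSection, K_not_coisotropic,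
    fun _ F hF => countable_of_R0 K R0_subset_K F hF⟩

end Pool.Agent.Results.MP_e888d6_gt.RigidSpheres
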